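import Pool.Agent.H594R2.Mey2.Graph

/-!
# The minimum order of graphs with cop number `k` is at least `k² / (6561 (2 log k + 1)²)`

The problem asks whether this order is the order of a `(k, 5)`-cage, which is at least `k² + 1` and
`O(k²)`.
-/

set_option autoImplicit false

namespace Pool.Agent.Results.MP_01f3ce_co.OrderUpToLogs

open N6ef48c04

/-- **Theorem.** Every connected graph with cop number at least `k` has at least
`k² / (81 (2 log k + 1))²` vertices. -/
theorem result : ∀ (k : ℕ), 1 ≤ k → ∀ (V : Type) [Fintype V] (G : SimpleGraph V), G.Connected →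
    k ≤ copNumber G →
    (k : ℝ) ^ 2 / (81 * (2 * Real.log k + 1)) ^ 2 ≤ Fintype.card V := by
  intro k hk V _ G hG hc
  have h1 := Pool.Agent.H594R2.Mey2.graph_bound G hG
  obtain ⟨v⟩ := hG.nonempty
  have hn0 : 0 < Fintype.card V := Fintype.card_pos_iff.2 ⟨v⟩
  have hn : (1 : ℝ) ≤ Fintype.card V := by exact_mod_cast hn0
  have hk1 : (1 : ℝ) ≤ k := by exact_mod_cast hk
  have hl : 0 ≤ Real.log k := Real.log_nonneg hk1
  rw [div_le_iff₀ (by positivity)]
  rcases le_total (Fintype.card V : ℝ) ((k : ℝ) ^ 2) with h | h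
  · have h2 : Real.log (Fintype.card V) ≤ 2 * Real.log k := by
      have := Real.log_le_log (by linarith) h
      rwa [Real.log_pow, Nat.cast_ofNat] at this
    have h3 : (k : ℝ) ≤ 81 * √(Fintype.card V) * (2 * Real.log k + 1) := by
      have h4 : (k : ℝ) ≤ copNumber G := by exact_mod_cast hc
      refine h4.trans (h1.trans ?_)
      gcongr
    calc (k : ℝ) ^ 2 ≤ (81 * √(Fintype.card V) * (2 * Real.log k + 1)) ^ 2 := by gcongr
      _ = (√(Fintype.card V)) ^ 2 * (81 * (2 * Real.log k + 1)) ^ 2 := by ring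
      _ = Fintype.card V * (81 * (2 * Real.log k + 1)) ^ 2 := by
          rw [Real.sq_sqrt (by positivity)]
  · have h2 : (1 : ℝ) ≤ (81 * (2 * Real.log k + 1)) ^ 2 := by nlinarith
    nlinarith

end Pool.Agent.Results.MP_01f3ce_co.OrderUpToLogs
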